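import Mathlib

set_option autoImplicit false

namespace Pool.Agent.H.MP_66c699_al

open Subgroup

variable {Γ A : Type} [Group Γ] [CommGroup A]

def Mu (S : Subgroup Γ) (f : Γ → A) : Prop := ∀ a ∈ S, ∀ b ∈ S, f (a * b) = f a * f b

theorem Mu.one {S : Subgroup Γ} {f : Γ → A} (h : Mu S f) : f 1 = 1 := by
  simpa using h 1 S.one_mem 1 S.one_mem

theorem Mu.pow {S : Subgroup Γ} {f : Γ → A} (h : Mu S f) {s : Γ} (hs : s ∈ S) (n : ℕ) : f (s ^ n) = f s ^ n := by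
  induction n with
  | zero => simpa using h.one
  | succ n ih => rw [pow_succ, h _ (S.pow_mem hs n) _ hs, ih, pow_succ]

theorem transf (K S : Subgroup Γ) [K.Normal] [K.FiniteIndex] (hK : K ≤ S) (ψ : Γ → A) (h1 : Mu K ψ)
    (h2 : ∀ s ∈ S, ∀ k ∈ K, ψ (s * k * s⁻¹) = ψ k) : Mu S fun s => ψ (s ^ K.index) := by
  have hi : ∀ k ∈ K, ψ k⁻¹ = (ψ k)⁻¹ := fun k hk => eq_inv_of_mul_eq_one_left (by rw [← h1 _ (K.inv_mem hk) _ hk]; simpa using h1.one)
  let N : Subgroup S :=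
    { carrier := {k | k.1 ∈ K ∧ ψ k = 1}
      mul_mem' := fun {a b} ha hb => ⟨K.mul_mem ha.1 hb.1, by rw [coe_mul, h1 _ ha.1 _ hb.1, ha.2, hb.2, one_mul]⟩
      one_mem' := ⟨K.one_mem, h1.one⟩
      inv_mem' := fun {a} ha => ⟨K.inv_mem ha.1, by rw [coe_inv, hi _ ha.1, ha.2, inv_one]⟩ }
  have : N.Normal := ⟨fun k hk s => ⟨Normal.conj_mem inferInstance _ hk.1 _, (h2 s s.2 k hk.1).trans hk.2⟩⟩
  have hc : (K.subgroupOf S).map (QuotientGroup.mk' N) ≤ center (S ⧸ N) := by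
    rintro _ ⟨k, hk, rfl⟩
    refine mem_center_iff.2 fun s => ?_
    obtain ⟨s, rfl⟩ := QuotientGroup.mk'_surjective N s
    rw [← map_mul, ← map_mul, QuotientGroup.mk'_apply, QuotientGroup.mk'_apply, QuotientGroup.eq]
    have hk : k.1 ∈ K := hk
    have e : (((s * k)⁻¹ * (k * s) : S) : Γ) = (k : Γ)⁻¹ * ((s : Γ)⁻¹ * k * (s : Γ)⁻¹⁻¹) := by simp [mul_assoc]
    have m := Normal.conj_mem inferInstance _ hk (s : Γ)⁻¹
    refine ⟨e ▸ K.mul_mem (K.inv_mem hk) m, ?_⟩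
    rw [e, h1 _ (K.inv_mem hk) _ m, h2 _ (S.inv_mem s.2) _ hk, hi _ hk, inv_mul_cancel]
  have d : (center (S ⧸ N)).index ∣ K.index :=
    (index_dvd_of_le hc).trans ((index_map_dvd _ (QuotientGroup.mk'_surjective N)).trans (relIndex_dvd_index_of_normal K S))
  have : (center (S ⧸ N)).FiniteIndex := ⟨fun h => FiniteIndex.index_ne_zero (H := K) (by simpa [h] using d)⟩
  obtain ⟨j, hj⟩ := d
  intro a ha b hb
  have e : ∀ x y : S ⧸ N, (x * y) ^ K.index = x ^ K.index * y ^ K.index := fun x y => by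
    have := congrArg (fun z : center (S ⧸ N) => ((z ^ j : center (S ⧸ N)) : S ⧸ N)) (map_mul (MonoidHom.transferCenterPow (S ⧸ N)) x y)
    simp only [coe_mul, coe_pow, MonoidHom.transferCenterPow_apply] at this
    rw [hj, pow_mul, pow_mul, pow_mul, this]
    exact Commute.mul_pow (mem_center_iff.1 ((center (S ⧸ N)).pow_index_mem y) _) j
  have := e (QuotientGroup.mk ⟨a, ha⟩) (QuotientGroup.mk ⟨b, hb⟩)
  rw [← QuotientGroup.mk_mul, ← QuotientGroup.mk_pow, ← QuotientGroup.mk_pow, ← QuotientGroup.mk_pow, ← QuotientGroup.mk_mul,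
    QuotientGroup.eq] at this
  have e2 : ψ (((a * b) ^ K.index)⁻¹ * (a ^ K.index * b ^ K.index)) = 1 := this.2
  have m := fun x => K.pow_index_mem x
  rw [h1 _ (K.inv_mem (m _)) _ (K.mul_mem (m _) (m _)), hi _ (m _), h1 _ (m _) _ (m _), inv_mul_eq_one] at e2
  exact e2

theorem core {X : Type} [Fintype X] [MulAction Γ X] (sec : Γ → X → Γ) (ins : X → Γ → Γ) (St : ℕ → Subgroup Γ)
    [(St 0).Normal] [(St 0).FiniteIndex] [(St 1).Normal] (hle : St 1 ≤ St 0)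
    (hs : ∀ g h x, sec (g * h) x = sec g (h • x) * sec h x)
    (i1 : ∀ n x, ∀ k ∈ St n, ins x k ∈ St (n + 1))
    (i2 : ∀ x, ∀ k ∈ St 0, ins x k • x = x ∧ sec (ins x k) x = k)
    (i3 : ∀ x, ∀ a ∈ St 0, ∀ b ∈ St 0, ins x (a * b) = ins x a * ins x b)
    (i4 : ∀ s x, ∀ k ∈ St 0, s * ins x k * s⁻¹ = ins (s • x) (sec s x * k * (sec s x)⁻¹))
    (i5 : ∀ m ∈ St 1, (∀ x, m • x = x ∧ sec m x ∈ St 0) ∧ ∀ ψ : Γ → A, Mu (St 0) ψ → ψ m = ∏ x, ψ (ins x (sec m x)))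
    (n : ℕ) : ∀ (S : Subgroup Γ) (ψ : Γ → A), St 0 ≤ S → Mu (St 0) ψ → (∀ s ∈ S, ∀ k ∈ St 0, ψ (s * k * s⁻¹) = ψ k) →
      (∀ k ∈ St n, ψ k = 1) → ∀ s ∈ S, ψ (s ^ (St 0).index) ^ (St 1).index = 1 := by
  induction n with
  | zero => exact fun S ψ _ _ _ h s _ => by rw [h _ ((St 0).pow_index_mem s), one_pow]
  | succ n ih =>
    intro S ψ hS h1 h2 h3
    have s1 : ∀ x, sec 1 x = 1 := fun x => by simpa using hs 1 1 x
    have si : ∀ g x, sec g⁻¹ (g • x) = (sec g x)⁻¹ := fun g x => eq_inv_of_mul_eq_one_left (by rw [← hs, inv_mul_cancel, s1])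
    let T : X → Subgroup Γ := fun x =>
      { carrier := {g | ∃ s ∈ S, s • x = x ∧ sec s x = g}
        mul_mem' := by
          rintro _ _ ⟨a, ha, e, rfl⟩ ⟨b, hb, e', rfl⟩
          exact ⟨a * b, S.mul_mem ha hb, by rw [mul_smul, e', e], by rw [hs, e']⟩
        one_mem' := ⟨1, S.one_mem, one_smul _ _, s1 x⟩
        inv_mem' := by
          rintro _ ⟨a, ha, e, rfl⟩
          exact ⟨a⁻¹, S.inv_mem ha, inv_smul_eq_iff.2 e.symm, by rw [← si, e]⟩ }
    have iK : ∀ x, ∀ k ∈ St 0, ins x k ∈ St 0 := fun x k hk => hle (i1 0 x k hk)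
    have t0 : ∀ x, St 0 ≤ T x := fun x k hk => ⟨ins x k, hS (iK x k hk), i2 x k hk⟩
    have t1 : ∀ x, Mu (St 0) fun k => ψ (ins x k) := fun x a ha b hb => by
      simp only [i3 x a ha b hb, h1 _ (iK x a ha) _ (iK x b hb)]
    have t2 : ∀ x, ∀ g ∈ T x, ∀ k ∈ St 0, ψ (ins x (g * k * g⁻¹)) = ψ (ins x k) := by
      rintro x _ ⟨s, hs, e, rfl⟩ k hk
      rw [← h2 s hs _ (iK x k hk), i4 s x k hk, e]
    have t3 := fun x => ih (T x) _ (t0 x) (t1 x) (t2 x) fun k hk => h3 _ (i1 n x k hk)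
    have t4 := fun x => transf (St 0) (T x) (t0 x) _ (t1 x) (t2 x)
    let b : X → X := fun y => (Quotient.mk (MulAction.orbitRel S X) y).out
    have hb : ∀ s ∈ S, ∀ y, b (s • y) = b y := fun s hs y =>
      congrArg Quotient.out (Quotient.sound ⟨⟨s, hs⟩, rfl⟩)
    have : ∀ y, ∃ t ∈ S, t • b y = y := fun y => by
      obtain ⟨t, ht⟩ := (MulAction.orbitRel S X).symm (Quotient.mk_out (s := MulAction.orbitRel S X) y)
      exact ⟨t, t.2, ht⟩
    choose t tS tb using this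
    let c : Γ → X → Γ := fun s y => sec ((t (s • y))⁻¹ * s * t y) (b y)
    have fx : ∀ s ∈ S, ∀ y, ((t (s • y))⁻¹ * s * t y) • b y = b y := fun s hs y => by
      rw [mul_smul, mul_smul, tb, inv_smul_eq_iff, ← hb s hs y, tb]
    have cT : ∀ s ∈ S, ∀ y, c s y ∈ T (b y) := fun s hs y =>
      ⟨_, S.mul_mem (S.mul_mem (S.inv_mem (tS _)) hs) (tS _), fx s hs y, rfl⟩
    let Ψ : Γ → A := fun s => ∏ y, ψ (ins (b y) (c s y ^ (St 0).index))
    have p1 : Mu S Ψ := fun s hs' s' hs'' => by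
      simp only [Ψ]
      rw [← Equiv.prod_comp (MulAction.toPerm s') fun y => ψ (ins (b y) (c s y ^ (St 0).index)), ← Finset.prod_mul_distrib]
      refine Finset.prod_congr rfl fun y _ => ?_
      have e : c (s * s') y = c s (s' • y) * c s' y := by
        simp only [c]
        rw [hb s' hs'' y]
        nth_rewrite 2 [← fx s' hs'' y]
        rw [← hs, mul_smul s s' y]
        congr 1
        group
      have := cT s hs' (s' • y)
      rw [hb s' hs''] at this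
      rw [e, MulAction.toPerm_apply, hb s' hs'']
      exact t4 (b y) _ this _ (cT s' hs'' y)
    have p2 : ∀ m ∈ St 1, ψ (m ^ (St 0).index) = Ψ m := fun m hm => by
      obtain ⟨a1, a2⟩ := i5 m hm
      rw [h1.pow (hle hm), a2 ψ h1, ← Finset.prod_pow]
      refine Finset.prod_congr rfl fun y _ => ?_
      have e : c m y = (sec (t y) (b y))⁻¹ * sec m y * (sec (t y) (b y))⁻¹⁻¹ := by
        simp only [c]
        have := si (t y) (b y)
        rw [tb] at this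
        rw [hs, hs, tb, (a1 y).1, this, inv_inv]
      have hc : c m y ∈ St 0 := e ▸ Normal.conj_mem inferInstance _ (a1 y).2 _
      rw [(t1 (b y)).pow hc, ← h2 _ (tS y) _ (iK _ _ hc), i4 _ _ _ hc, tb, e]
      congr 3
      group
    intro s hs'
    have m := (St 1).pow_index_mem s
    rw [← (transf (St 0) S hS ψ h1 h2).pow hs', p2 _ m, p1.pow hs', ← Finset.prod_pow]
    exact Finset.prod_eq_one fun y _ => t3 (b y) _ (cT s hs' y)

end Pool.Agent.H.MP_66c699_al
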